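import Pool.Agent.H.MP_35a6f4_lc.C

namespace Pool.Agent.Results.MP_35a6f4_lc.Learner

open Pool.Agent.Lib.CX Pool.Agent.H.MP_35a6f4_lc

theorem result (T : Type) [Fintype T] [Nonempty T] [Enc T] : ∃ A : Sample T → Cfg T, PT A ∧
    (∀ S : Sample T, (∀ w ∈ S.1, w ∉ S.2) → Consistent S (A S).toCFG.language) ∧
    ∃ q : Polynomial ℕ, ∀ G : ContextFreeGrammar T, ∃ C : Sample T,
      C.1.length + C.2.length ≤ q.eval (gsize G) ∧ Consistent C G.language ∧
        ∀ S : Sample T, Consistent S G.language → C.1 ⊆ S.1 → C.2 ⊆ S.2 →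
          (A S).toCFG.language = G.language := learn

end Pool.Agent.Results.MP_35a6f4_lc.Learner
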